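import Pool.Agent.MP_99d1ae_lc.Defs
import Pool.Agent.MP_99d1ae_lc.Imm

set_option autoImplicit false

namespace Pool.Agent.Results.MP_99d1ae_lc.BiImmune

open Pool.Agent.MP_99d1ae_lc

/-- A primitive recursive splitting of `a^* {ab, ba}` into two languages with one word of each
length, neither of which contains an infinite language of `EM_1`. -/
theorem result : ∃ L L' : Language (Fin 2),
    (PrimrecPred fun w : List (Fin 2) => w ∈ L) ∧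
    (∀ w, (w ∈ L ∨ w ∈ L') ↔
      ∃ n, w = List.replicate n 0 ++ [0, 1] ∨ w = List.replicate n 0 ++ [1, 0]) ∧
    (∀ w, ¬ (w ∈ L ∧ w ∈ L')) ∧
    (∀ n, List.replicate n 0 ++ [0, 1] ∈ L ↔ List.replicate n 0 ++ [1, 0] ∈ L') ∧
    ∀ K : Language (Fin 2), IsEM1 K → {w | w ∈ K}.Infinite → ¬ K ≤ L ∧ ¬ K ≤ L' := by
  refine ⟨Imm.LS, {w | (∃ n b, w = Imm.wd n b) ∧ w ∉ Imm.LS}, Imm.LS_primrec, fun w => ⟨?_, ?_⟩,
    fun w h => h.2.2 h.1, fun n => ?_, fun K hK hi => ⟨fun h => ?_, fun h => ?_⟩⟩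
  · rintro (⟨n, b, rfl, -⟩ | ⟨⟨n, b, rfl⟩, -⟩) <;> cases b
    exacts [⟨n, .inr rfl⟩, ⟨n, .inl rfl⟩, ⟨n, .inr rfl⟩, ⟨n, .inl rfl⟩]
  · rintro ⟨n, h⟩
    by_cases h' : w ∈ Imm.LS
    · exact .inl h'
    · exact .inr ⟨h.elim (fun e => ⟨n, true, e⟩) fun e => ⟨n, false, e⟩, h'⟩
  · show Imm.wd n true ∈ Imm.LS ↔ (∃ m b, Imm.wd n false = Imm.wd m b) ∧ Imm.wd n false ∉ Imm.LS
    rw [Imm.mem_LS, Imm.mem_LS]
    exact ⟨fun h => ⟨⟨_, _, rfl⟩, by simpa using h⟩, fun h => by simpa using h.2⟩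
  · obtain ⟨n, b, h1, h2⟩ := Imm.immune hK hi
      (fun w hw => (h hw).imp fun _ e => e.imp fun _ e => e.1) 0
    have := Imm.mem_LS.1 (h h1)
    cases b <;> simp_all
  · obtain ⟨n, b, h1, h2⟩ := Imm.immune hK hi (fun w hw => (h hw).1) 1
    have := (h h1).2
    rw [Imm.mem_LS] at this
    cases b <;> simp_all

end Pool.Agent.Results.MP_99d1ae_lc.BiImmune
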