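import Mathlib
import Pool.Agent.MP_99d1ae_lc.Defs
import Pool.Agent.Mg.F99d1ae.G311248

set_option autoImplicit false

namespace Pool.Agent.Results.MP_99d1ae_lc.Position

open Pool.Agent.MP_99d1ae_lc

/-- `CF ⊆ M ⊊ EM_1 ⊊ RE`, and `EM_1` is incomparable with `CS` and with the recursive languages. -/
theorem result :
    (∀ (T : Type) (L : Language T), L.IsContextFree → IsMatrix L) ∧
    (∀ (T : Type) (L : Language T), IsMatrix L → IsEM1 L) ∧
    (∀ (k : ℕ) (L : Language (Fin k)), IsEM1 L → REPred fun w : List (Fin k) => w ∈ L) ∧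
    (∃ L : Language (Fin 3), IsEM1 L ∧ ¬ IsMatrix L ∧ ¬ IsCS L ∧
      ¬ ComputablePred fun w : List (Fin 3) => w ∈ L) ∧
    (∃ L : Language (Fin 3), IsCS L ∧ (ComputablePred fun w : List (Fin 3) => w ∈ L) ∧
      (REPred fun w : List (Fin 3) => w ∈ L) ∧ ¬ IsEM1 L) :=
  position

end Pool.Agent.Results.MP_99d1ae_lc.Position
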