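import Pool.Agent.MP_99d1ae_lc.Defs
import Pool.Agent.MP_99d1ae_lc.Obl

set_option autoImplicit false

namespace Pool.Agent.Results.MP_99d1ae_lc.ThinCounter

open Pool.Agent.MP_99d1ae_lc

/-- `EM_1` simulates deterministic multicounter machines with zero tests exactly: the verdict is
the order of the last two letters. Example: an infinite language of `EM_1` with no infinite
matrix sublanguage. -/
theorem result :
    (∀ (T : Type) (m k K : ℕ) (h : Fin m → List T) (p q : T) (a : Fin (k + 1) → ℕ)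
      (g : Option (Fin m) → (Fin (k + 1) → Bool) → Fin (k + 1) → ℕ)
      (F : Option (Fin m) → (Fin (k + 1) → ℕ) → Fin (k + 1) → ℕ) (L : Language T),
      (∀ s x i, F s x i = x i - 1 + g s (fun j => decide (x j = 0)) i) →
      (∀ u, u ∈ L ↔ ∃ w : List (Fin m), u = w.flatMap h ++
        if (F none)^[K * w.length] (w.foldl (fun x s => F (some s) x) a) 0 = 0 then [p, q]
        else [q, p]) → IsEM1 L) ∧
    ∀ L R : Language (Fin 2),
      (∀ u, u ∈ L ↔ ∃ n, u = List.replicate n 0 ++ if Even n.sqrt then [0, 1] else [1, 0]) →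
      (∀ u, u ∈ R ↔ ∃ n, u = List.replicate n 0 ++ [0, 1]) →
      IsEM1 L ∧ ∀ K : Language (Fin 2), {w | w ∈ K}.Infinite →
        (IsMatrix K → ¬ K ≤ L) ∧ (IsEM1 K → ¬ K ≤ L ⊓ R) := by
  refine ⟨fun T m k K h p q a g F L hF hL => ?_, fun L R hL hR => ?_⟩
  · obtain rfl : F = fun s => Obl.stp (g s) := by
      funext s x i
      exact hF s x i
    exact (Set.ext hL : L = _) ▸ Obl.thin h p q g a K 0
  · refine ⟨(Set.ext hL : L = _) ▸ Obl.sq_em1, fun K hi => ⟨fun hK h => hi ?_, fun hK h => hi ?_⟩⟩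
    · exact Obl.sq_immune hK fun u hu => (hL u).1 (h hu)
    · refine Obl.half_finite hK True [0, 1] fun u hu => ?_
      obtain ⟨n, h1⟩ := (hL u).1 (h hu).1
      obtain ⟨n', h2⟩ := (hR u).1 (h hu).2
      split_ifs at h1 with h3
      · exact ⟨n, by simpa, h1⟩
      · simpa using congrArg List.getLast? (h1.symm.trans h2)

end Pool.Agent.Results.MP_99d1ae_lc.ThinCounter
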